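import Mathlib
import Pool.Agent.H64.G.R_seed8.Helper401.ENV.Dom

set_option autoImplicit false
namespace Pool.Agent.Helper401.ENV
open Complex Set Metric Filter Topology
open scoped ContDiff

/-- The space of `O(D)`-indexed families of germs. -/
structure GermSpace (n : ℕ) (D : Set (Fin n → ℂ)) where
  S : Type
  [top : TopologicalSpace S]
  [t2 : T2Space S]
  π : S → (Fin n → ℂ)
  lh : IsLocalHomeomorph π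
  rep : S → ((Fin n → ℂ) → ℂ) → (Fin n → ℂ) → ℂ
  rep_loc : ∀ x : S, ∃ r : ℝ, 0 < r ∧
    (∀ f, DifferentiableOn ℂ f D → DifferentiableOn ℂ (rep x f) (ball (π x) r)) ∧
    ∀ᶠ y in 𝓝 x, ∀ f, DifferentiableOn ℂ f D → rep y f =ᶠ[𝓝 (π y)] rep x f
  ext : ∀ x y, π x = π y → (∀ f, DifferentiableOn ℂ f D → rep x f =ᶠ[𝓝 (π x)] rep y f) → x = y
  sec : ∀ (z : Fin n → ℂ) (G : ((Fin n → ℂ) → ℂ) → (Fin n → ℂ) → ℂ) (r : ℝ), 0 < r →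
    (∀ f, DifferentiableOn ℂ f D → DifferentiableOn ℂ (G f) (ball z r)) →
    ∃ σ : (Fin n → ℂ) → S, ContinuousOn σ (ball z r) ∧ ∀ w ∈ ball z r, π (σ w) = w ∧
      ∀ f, DifferentiableOn ℂ f D → rep (σ w) f =ᶠ[𝓝 w] G f

attribute [instance] GermSpace.top GermSpace.t2

noncomputable def nn (p : Fin 5 → ℂ) : ℝ :=
  ‖p 0‖ ^ 2 + ‖p 1‖ ^ 2 + ‖p 2‖ ^ 2 + ‖p 3‖ ^ 2 + (p 4).re ^ 2

noncomputable def rr (eT : ℝ → ℝ) (Bs : ℂ × ℂ × ℝ → ℝ) (p : Fin 5 → ℂ) : ℝ :=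
  (p 0 * p 1).re + 200 * ‖p 0 * p 1‖ ^ 2 + 400 * (p 4).im ^ 2 + expNegInvGlue (nn p - 4)
    + 1000 * expNegInvGlue (3 / 4 - (p 4).re) * (‖p 0‖ ^ 2 - 1) ^ 2 - eT (p 4).re
    + Bs (p 2 * (starRingEnd ℂ) (p 0), p 3, (p 4).re)

noncomputable def EE (f : (Fin 5 → ℂ) → ℂ) (v : ℂ) (p : Fin 5 → ℂ) : ℂ :=
  (2 * Real.pi * I)⁻¹ * ∮ ζ in C(0, 1), f ![ζ, p 1, p 2 + v * (ζ - p 0), p 3, p 4] / (ζ - p 0)

/-- parameters `(v,p)` whose circle lies in `D` -/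
def Om (D : Set (Fin 5 → ℂ)) : Set (ℂ × (Fin 5 → ℂ)) :=
  {q | ‖q.2 0‖ < 1 ∧ ∀ ζ : ℂ, ‖ζ‖ = 1 →
    (![ζ, q.2 1, q.2 2 + q.1 * (ζ - q.2 0), q.2 3, q.2 4] : Fin 5 → ℂ) ∈ D}

end Pool.Agent.Helper401.ENV
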