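import Mathlib
import Pool.Agent.H64.G.R_seed8.Helper401.ENV.Defs

set_option autoImplicit false
namespace Pool.Agent.Helper401.ENV.C1
open Complex Set Metric Filter Topology

/-- holomorphic dependence of an integral over `[0, 2π]` on parameters -/
theorem param_8105 {E : Type*} [NormedAddCommGroup E] [NormedSpace ℂ E] [ProperSpace E]
    {U : Set E} (hU : IsOpen U) (K : ℝ → E → ℂ)
    (hc : ContinuousOn (Function.uncurry K) (univ ×ˢ U))
    (hd : ∀ t, DifferentiableOn ℂ (K t) U) :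
    DifferentiableOn ℂ (fun q => ∫ t in (0 : ℝ)..(2 * Real.pi), K t q) U := by
  intro q0 hq0
  obtain ⟨r, hr, hrU⟩ := Metric.nhds_basis_closedBall.mem_iff.1 (hU.mem_nhds hq0)
  -- continuity in the time variable
  have hct : ∀ q ∈ U, Continuous (fun t => K t q) := by
    intro q hq
    have : ContinuousOn (fun t : ℝ => Function.uncurry K (t, q)) univ :=
      hc.comp (by fun_prop) (fun t _ => ⟨mem_univ _, hq⟩)
    exact continuousOn_univ.1 this
  -- bound
  have hcomp : IsCompact (Icc (0 : ℝ) (2 * Real.pi) ×ˢ closedBall q0 r) :=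
    isCompact_Icc.prod (isCompact_closedBall q0 r)
  obtain ⟨M, hM⟩ := hcomp.exists_bound_of_continuousOn
    (hc.mono (prod_mono (subset_univ _) hrU))
  have hM' : ∀ t ∈ Icc (0 : ℝ) (2 * Real.pi), ∀ q ∈ closedBall q0 r, ‖K t q‖ ≤ M :=
    fun t ht q hq => hM (t, q) ⟨ht, hq⟩
  -- continuity of the derivative at q0
  have hderc : Continuous (fun t => fderiv ℂ (K t) q0) := by
    rw [continuous_iff_continuousAt]
    intro t0
    rw [Metric.continuousAt_iff']
    intro ε hε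
    have hu : {p : ℂ × ℂ | dist p.1 p.2 < ε * r / 4} ∈ uniformity ℂ :=
      Metric.dist_mem_uniformity (by positivity)
    obtain ⟨v, hv, hv2⟩ := (isCompact_closedBall q0 r).mem_uniformity_of_prod
      (hc.mono (prod_mono (subset_univ _) hrU)) (mem_univ t0) hu
    rw [nhdsWithin_univ] at hv
    filter_upwards [hv] with t ht
    have hb : ball q0 r ⊆ U := ball_subset_closedBall.trans hrU
    have hdt : ∀ t, DifferentiableAt ℂ (K t) q0 := fun t => (hd t).differentiableAt (hU.mem_nhds hq0)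
    rw [dist_eq_norm, ← fderiv_fun_sub (hdt t) (hdt t0)]
    have hmaps : MapsTo (fun q => K t q - K t0 q) (ball q0 r)
        (closedBall ((fun q => K t q - K t0 q) q0) (ε * r / 2)) := by
      intro q hq
      rw [mem_closedBall, dist_eq_norm]
      have h1 := hv2 t ht q (ball_subset_closedBall hq)
      have h2 := hv2 t ht q0 (mem_closedBall_self hr.le)
      simp only [mem_ofPred_eq, dist_eq_norm] at h1 h2
      calc ‖K t q - K t0 q - (K t q0 - K t0 q0)‖ ≤ ‖K t q - K t0 q‖ + ‖K t q0 - K t0 q0‖ :=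
            norm_sub_le _ _
        _ ≤ ε * r / 2 := by linarith
    have h3 := Complex.norm_fderiv_le_div_of_mapsTo_ball
      (((hd t).mono hb).sub ((hd t0).mono hb)) hmaps hr
    calc _ ≤ _ := h3
      _ = ε / 2 := by field_simp
      _ < ε := by linarith
  have hI : Set.uIoc (0 : ℝ) (2 * Real.pi) ⊆ Icc (0 : ℝ) (2 * Real.pi) := by
    rw [uIoc_of_le (by positivity)]
    exact Ioc_subset_Icc_self
  have hr2 : 0 < r / 2 := by positivity
  have hball : ball q0 (r / 2) ⊆ U := (ball_subset_closedBall.trans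
    (closedBall_subset_closedBall (by linarith))).trans hrU
  refine (intervalIntegral.hasFDerivAt_integral_of_dominated_of_fderiv_le (μ := MeasureTheory.volume)
    (F := fun q t => K t q) (F' := fun q t => fderiv ℂ (K t) q) (x₀ := q0) (s := ball q0 (r / 2))
    (bound := fun _ => 2 * M / (r / 2)) (ball_mem_nhds q0 hr2) ?_ ?_ ?_ ?_ ?_
    ?_).differentiableAt.differentiableWithinAt
  · filter_upwards [ball_mem_nhds q0 hr2] with q hq
    exact (hct q (hball hq)).aestronglyMeasurable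
  · exact (hct q0 hq0).intervalIntegrable _ _
  · exact hderc.aestronglyMeasurable
  · refine Eventually.of_forall (fun t ht q hq => ?_)
    have hsub : ball q (r / 2) ⊆ closedBall q0 r := by
      intro x hx
      rw [mem_ball] at hx hq
      rw [mem_closedBall]
      linarith [dist_triangle x q q0]
    have hmaps : MapsTo (K t) (ball q (r / 2)) (closedBall (K t q) (2 * M)) := by
      intro x hx
      rw [mem_closedBall, dist_eq_norm]
      calc ‖K t x - K t q‖ ≤ ‖K t x‖ + ‖K t q‖ := norm_sub_le _ _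
        _ ≤ 2 * M := by linarith [hM' t (hI ht) x (hsub hx), hM' t (hI ht) q (hsub (mem_ball_self hr2))]
    exact Complex.norm_fderiv_le_div_of_mapsTo_ball ((hd t).mono (hsub.trans hrU)) hmaps hr2
  · exact intervalIntegrable_const
  · refine Eventually.of_forall (fun t ht q hq => ?_)
    exact ((hd t).differentiableAt (hU.mem_nhds (hball hq))).hasFDerivAt

theorem cont_phi_8105 : Continuous (fun z : ℂ × (ℂ × (Fin 5 → ℂ)) =>
    (![z.1, z.2.2 1, z.2.2 2 + z.2.1 * (z.1 - z.2.2 0), z.2.2 3, z.2.2 4] : Fin 5 → ℂ)) := by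
  refine continuous_pi (fun i => ?_)
  fin_cases i <;> simp <;> fun_prop

theorem diff_phi_8105 : Differentiable ℂ (fun z : ℂ × (ℂ × (Fin 5 → ℂ)) =>
    (![z.1, z.2.2 1, z.2.2 2 + z.2.1 * (z.1 - z.2.2 0), z.2.2 3, z.2.2 4] : Fin 5 → ℂ)) := by
  refine differentiable_pi.2 (fun i => ?_)
  fin_cases i <;> simp <;> fun_prop

theorem Om_open {D : Set (Fin 5 → ℂ)} (hD : IsOpen D) : IsOpen (Om D) := by
  have h1 : IsOpen {q : ℂ × (Fin 5 → ℂ) | ‖q.2 0‖ < 1} :=
    isOpen_lt (by fun_prop) continuous_const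
  rw [isOpen_iff_mem_nhds]
  intro q hq
  have hcs : IsCompact (sphere (0 : ℂ) 1) := isCompact_sphere 0 1
  have h2 : ∀ᶠ x in 𝓝 q, ∀ ζ ∈ sphere (0 : ℂ) 1,
      (![ζ, x.2 1, x.2 2 + x.1 * (ζ - x.2 0), x.2 3, x.2 4] : Fin 5 → ℂ) ∈ D := by
    refine hcs.eventually_forall_of_forall_eventually (fun ζ hζ => ?_)
    have h3 : Continuous (fun z : (ℂ × (Fin 5 → ℂ)) × ℂ =>
        (![z.2, z.1.2 1, z.1.2 2 + z.1.1 * (z.2 - z.1.2 0), z.1.2 3, z.1.2 4] : Fin 5 → ℂ)) :=
      cont_phi_8105.comp (continuous_snd.prodMk continuous_fst)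
    exact h3.continuousAt.eventually (hD.mem_nhds (hq.2 ζ (by simpa using hζ)))
  filter_upwards [h1.mem_nhds hq.1, h2] with x hx1 hx2
  exact ⟨hx1, fun ζ hζ => hx2 ζ (by simpa using hζ)⟩

theorem EE_diff {D : Set (Fin 5 → ℂ)} (hD : IsOpen D) {f : (Fin 5 → ℂ) → ℂ}
    (hf : DifferentiableOn ℂ f D) :
    DifferentiableOn ℂ (fun q : ℂ × (Fin 5 → ℂ) => EE f q.1 q.2) (Om D) := by
  have hne : ∀ (t : ℝ) (q : ℂ × (Fin 5 → ℂ)), q ∈ Om D → circleMap 0 1 t - q.2 0 ≠ 0 := by
    intro t q hq h0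
    have h1 : ‖circleMap 0 1 t‖ = 1 := by simp
    rw [sub_eq_zero.1 h0] at h1
    exact absurd h1 hq.1.ne
  have hmem : ∀ (t : ℝ) (q : ℂ × (Fin 5 → ℂ)), q ∈ Om D →
      (![circleMap 0 1 t, q.2 1, q.2 2 + q.1 * (circleMap 0 1 t - q.2 0), q.2 3, q.2 4] :
        Fin 5 → ℂ) ∈ D := fun t q hq => hq.2 _ (by simp)
  have key := param_8105 (Om_open hD) (fun (t : ℝ) (q : ℂ × (Fin 5 → ℂ)) =>
    deriv (circleMap 0 1) t • (f ![circleMap 0 1 t, q.2 1,
      q.2 2 + q.1 * (circleMap 0 1 t - q.2 0), q.2 3, q.2 4] / (circleMap 0 1 t - q.2 0))) ?_ ?_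
  · exact key.const_mul _
  · rintro ⟨t, q⟩ ⟨-, hq⟩
    have hfc : ContinuousAt f (![circleMap 0 1 t, q.2 1,
      q.2 2 + q.1 * (circleMap 0 1 t - q.2 0), q.2 3, q.2 4] : Fin 5 → ℂ) :=
      (hf.differentiableAt (hD.mem_nhds (hmem t q hq))).continuousAt
    have hcm : Continuous (fun z : ℝ × (ℂ × (Fin 5 → ℂ)) => circleMap 0 1 z.1) :=
      (continuous_circleMap 0 1).comp continuous_fst
    have hcd : Continuous (fun z : ℝ × (ℂ × (Fin 5 → ℂ)) => deriv (circleMap 0 1) z.1) := by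
      have : Continuous (deriv (circleMap 0 1)) := by
        have h0 : deriv (circleMap 0 1) = fun t => circleMap 0 1 t * I := by
          funext t
          exact deriv_circleMap 0 1 t
        rw [h0]
        exact (continuous_circleMap 0 1).mul continuous_const
      exact this.comp continuous_fst
    have hphi : ContinuousAt (fun z : ℝ × (ℂ × (Fin 5 → ℂ)) =>
        f (![circleMap 0 1 z.1, z.2.2 1,
          z.2.2 2 + z.2.1 * (circleMap 0 1 z.1 - z.2.2 0), z.2.2 3, z.2.2 4] : Fin 5 → ℂ)) (t, q) := by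
      have h3 : Continuous (fun z : ℝ × (ℂ × (Fin 5 → ℂ)) =>
        (![circleMap 0 1 z.1, z.2.2 1, z.2.2 2 + z.2.1 * (circleMap 0 1 z.1 - z.2.2 0), z.2.2 3,
          z.2.2 4] : Fin 5 → ℂ)) :=
        cont_phi_8105.comp (hcm.prodMk continuous_snd)
      exact ContinuousAt.comp (f := fun z : ℝ × (ℂ × (Fin 5 → ℂ)) =>
        (![circleMap 0 1 z.1, z.2.2 1, z.2.2 2 + z.2.1 * (circleMap 0 1 z.1 - z.2.2 0), z.2.2 3,
          z.2.2 4] : Fin 5 → ℂ)) (g := f) hfc h3.continuousAt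
    have hden : ContinuousAt (fun z : ℝ × (ℂ × (Fin 5 → ℂ)) => circleMap 0 1 z.1 - z.2.2 0) (t, q) :=
      (hcm.sub (by fun_prop)).continuousAt
    exact (hcd.continuousAt.smul (hphi.div hden (hne t q hq))).continuousWithinAt
  · intro t q hq
    have hfd : DifferentiableAt ℂ f (![circleMap 0 1 t, q.2 1,
      q.2 2 + q.1 * (circleMap 0 1 t - q.2 0), q.2 3, q.2 4] : Fin 5 → ℂ) :=
      hf.differentiableAt (hD.mem_nhds (hmem t q hq))
    have hph : DifferentiableAt ℂ (fun q : ℂ × (Fin 5 → ℂ) => (![circleMap 0 1 t, q.2 1,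
      q.2 2 + q.1 * (circleMap 0 1 t - q.2 0), q.2 3, q.2 4] : Fin 5 → ℂ)) q :=
      (diff_phi_8105.comp ((differentiable_const (circleMap 0 1 t)).prodMk differentiable_id)) q
    have h4 : DifferentiableAt ℂ (fun q : ℂ × (Fin 5 → ℂ) => f (![circleMap 0 1 t, q.2 1,
      q.2 2 + q.1 * (circleMap 0 1 t - q.2 0), q.2 3, q.2 4] : Fin 5 → ℂ)) q :=
      DifferentiableAt.comp (g := f) q hfd hph
    have h5 : DifferentiableAt ℂ (fun q : ℂ × (Fin 5 → ℂ) => circleMap 0 1 t - q.2 0) q := by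
      fun_prop
    have h6 : DifferentiableAt ℂ (fun q : ℂ × (Fin 5 → ℂ) => f (![circleMap 0 1 t, q.2 1,
      q.2 2 + q.1 * (circleMap 0 1 t - q.2 0), q.2 3, q.2 4] : Fin 5 → ℂ) /
        (circleMap 0 1 t - q.2 0)) q := by
      simp only [div_eq_mul_inv]
      exact h4.mul (h5.inv (hne t q hq))
    exact (h6.const_smul (deriv (circleMap 0 1) t)).differentiableWithinAt

theorem EE_cauchy {D : Set (Fin 5 → ℂ)} (hD : IsOpen D) {f : (Fin 5 → ℂ) → ℂ}
    (hf : DifferentiableOn ℂ f D) (v : ℂ) (p : Fin 5 → ℂ) (hp : ‖p 0‖ < 1)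
    (h : ∀ ζ : ℂ, ‖ζ‖ ≤ 1 → (![ζ, p 1, p 2 + v * (ζ - p 0), p 3, p 4] : Fin 5 → ℂ) ∈ D) :
    EE f v p = f p := by
  have hg : DifferentiableOn ℂ (fun ζ : ℂ => f ![ζ, p 1, p 2 + v * (ζ - p 0), p 3, p 4])
      (closedBall 0 1) := by
    intro ζ hζ
    have h1 := h ζ (by simpa using hζ)
    have hfd := hf.differentiableAt (hD.mem_nhds h1)
    have hph : DifferentiableAt ℂ (fun ζ : ℂ =>
        (![ζ, p 1, p 2 + v * (ζ - p 0), p 3, p 4] : Fin 5 → ℂ)) ζ :=
      (diff_phi_8105.comp (differentiable_id.prodMk (differentiable_const (v, p)))) ζ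
    exact (DifferentiableAt.comp (g := f) ζ hfd hph).differentiableWithinAt
  have h2 := hg.circleIntegral_sub_inv_smul (w := p 0) (by simpa using hp)
  have h3 : (![p 0, p 1, p 2 + v * (p 0 - p 0), p 3, p 4] : Fin 5 → ℂ) = p := by
    funext i
    fin_cases i <;> simp
  unfold EE
  have h4 : (∮ ζ in C(0, 1), f ![ζ, p 1, p 2 + v * (ζ - p 0), p 3, p 4] / (ζ - p 0)) =
      ∮ ζ in C(0, 1), (ζ - p 0)⁻¹ • f ![ζ, p 1, p 2 + v * (ζ - p 0), p 3, p 4] := by
    congr 1
    funext ζ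
    rw [smul_eq_mul, div_eq_inv_mul]
  rw [h4, h2, h3, smul_eq_mul, ← mul_assoc, inv_mul_cancel₀, one_mul]
  exact Complex.two_pi_I_ne_zero

end Pool.Agent.Helper401.ENV.C1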